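import Pool.Agent.Helper72.HG.Defs
set_option autoImplicit false

/-!
HG3: the group algebra of a tame group embeds in a division ring.
-/

open Pool.Agent.Helper72.HG

namespace Pool.Agent.Helper75.HG

open scoped Pointwise nonZeroDivisors

variable {Γ : Type} [Group Γ]

/-- the element of the group algebra with coefficients `x` on `S` -/
noncomputable def emb (S : Finset Γ) (x : S → ℚ) : MonoidAlgebra ℚ Γ :=
  ∑ g : S, MonoidAlgebra.single (g : Γ) (x g)

theorem emb_coeff (S : Finset Γ) (x : S → ℚ) (g : S) : (emb S x).coeff (g : Γ) = x g := by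
  classical
  unfold emb
  rw [MonoidAlgebra.coeff_sum, Finsupp.finsetSum_apply]
  rw [Finset.sum_eq_single g]
  · simp
  · intro b _ hb
    rw [MonoidAlgebra.coeff_single_apply, if_neg]
    exact fun h => hb (Subtype.ext h)
  · simp

theorem emb_coeff_of_notMem (S : Finset Γ) (x : S → ℚ) {h : Γ} (hh : h ∉ S) :
    (emb S x).coeff h = 0 := by
  classical
  unfold emb
  rw [MonoidAlgebra.coeff_sum, Finsupp.finsetSum_apply]
  refine Finset.sum_eq_zero fun b _ => ?_
  rw [MonoidAlgebra.coeff_single_apply, if_neg]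
  rintro rfl
  exact hh b.2

theorem emb_add (S : Finset Γ) (x y : S → ℚ) : emb S (x + y) = emb S x + emb S y := by
  unfold emb
  rw [← Finset.sum_add_distrib]
  exact Finset.sum_congr rfl fun g _ => by rw [Pi.add_apply, MonoidAlgebra.single_add]

theorem emb_smul (S : Finset Γ) (c : ℚ) (x : S → ℚ) : emb S (c • x) = c • emb S x := by
  unfold emb
  rw [Finset.smul_sum]
  exact Finset.sum_congr rfl fun g _ => by
    rw [Pi.smul_apply, MonoidAlgebra.smul_single]

/-- left Ore condition -/
theorem ore (h : Tame Γ) (r s : MonoidAlgebra ℚ Γ) (hs : s ≠ 0) :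
    ∃ x y : MonoidAlgebra ℚ Γ, x ≠ 0 ∧ x * r = y * s := by
  classical
  have := h.up
  obtain ⟨S, hS, hU⟩ := h.folner (r.coeff.support ∪ s.coeff.support) (1 / 2) (by norm_num)
  have hcard := hU (S * (r.coeff.support ∪ s.coeff.support)) (fun u hu => by
    obtain ⟨a, ha, t, ht, rfl⟩ := Finset.mem_mul.1 hu
    exact ⟨a, ha, t, ht, rfl⟩)
  set U : Finset Γ := S * (r.coeff.support ∪ s.coeff.support) with hUdef
  let f : ((S → ℚ) × (S → ℚ)) →ₗ[ℚ] (U → ℚ) :=
    { toFun := fun p u => (emb S p.1 * r - emb S p.2 * s).coeff (u : Γ)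
      map_add' := fun p q => by
        ext u
        simp only [Prod.fst_add, Prod.snd_add, emb_add, add_mul, Pi.add_apply]
        rw [← Finsupp.add_apply, ← MonoidAlgebra.coeff_add]
        congr 2
        abel
      map_smul' := fun c p => by
        ext u
        simp only [Prod.smul_fst, Prod.smul_snd, emb_smul, smul_mul_assoc, ← smul_sub,
          MonoidAlgebra.coeff_smul_apply, Pi.smul_apply, RingHom.id_apply] }
  have hfin : Module.finrank ℚ (U → ℚ) < Module.finrank ℚ ((S → ℚ) × (S → ℚ)) := by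
    rw [Module.finrank_prod, Module.finrank_fintype_fun_eq_card,
      Module.finrank_fintype_fun_eq_card, Fintype.card_coe, Fintype.card_coe]
    have h1 : (0 : ℝ) < S.card := by exact_mod_cast hS.card_pos
    have h2 : (U.card : ℝ) < S.card + S.card := by linarith
    exact_mod_cast h2
  obtain ⟨⟨x, y⟩, hxy, hne⟩ := (Submodule.ne_bot_iff _).1 (LinearMap.ker_ne_bot_of_finrank_lt hfin)
  have hsupp : ∀ (z : S → ℚ) (t : MonoidAlgebra ℚ Γ),
      t.coeff.support ⊆ r.coeff.support ∪ s.coeff.support →
      (emb S z * t).coeff.support ⊆ U := by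
    intro z t ht
    refine (MonoidAlgebra.support_coeff_mul_subset ..).trans ?_
    refine Finset.mul_subset_mul ?_ ht
    intro g hg
    by_contra hgS
    exact (Finsupp.mem_support_iff.1 hg) (emb_coeff_of_notMem S z hgS)
  have heq : emb S x * r = emb S y * s := by
    rw [← sub_eq_zero]
    ext u
    by_cases hu : u ∈ U
    · have h3 : f (x, y) = 0 := LinearMap.mem_ker.1 hxy
      exact congrFun h3 ⟨u, hu⟩
    · have h1 : (emb S x * r).coeff u = 0 := by
        by_contra h1
        exact hu (hsupp x r Finset.subset_union_left (Finsupp.mem_support_iff.2 h1))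
      have h2 : (emb S y * s).coeff u = 0 := by
        by_contra h2
        exact hu (hsupp y s Finset.subset_union_right (Finsupp.mem_support_iff.2 h2))
      rw [MonoidAlgebra.coeff_sub, Finsupp.sub_apply, h1, h2, sub_zero]
      rfl
  refine ⟨emb S x, emb S y, fun hx0 => hne ?_, heq⟩
  have hx : x = 0 := by
    ext g
    rw [← emb_coeff S x g, hx0]
    rfl
  have hy0 : emb S y = 0 := by
    rw [hx0, zero_mul] at heq
    exact (mul_eq_zero.1 heq.symm).resolve_right hs
  have hy : y = 0 := by
    ext g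
    rw [← emb_coeff S y g, hy0]
    rfl
  rw [hx, hy]
  rfl

theorem linInd_single : LinearIndependent ℤ
    (fun g : Γ => (MonoidAlgebra.single g (1 : ℚ) : MonoidAlgebra ℚ Γ)) := by
  classical
  rw [linearIndependent_iff']
  intro s c hc g hg
  have h1 := congrArg (fun a : MonoidAlgebra ℚ Γ => a.coeff g) hc
  simp only [MonoidAlgebra.coeff_sum, Finsupp.finsetSum_apply] at h1
  rw [Finset.sum_eq_single g] at h1
  · rw [MonoidAlgebra.coeff_smul_apply, MonoidAlgebra.coeff_single_apply, if_pos rfl] at h1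
    simpa using h1
  · intro b _ hb
    rw [MonoidAlgebra.coeff_smul_apply, MonoidAlgebra.coeff_single_apply, if_neg hb, smul_zero]
  · exact fun h => absurd hg h

/-- HG3: division ring from a tame group -/
theorem exists_divisionRing (h : Tame Γ) :
    ∃ (K : Type) (_ : DivisionRing K) (ρ : Γ →* K), LinearIndependent ℤ ρ := by
  have := h.up
  obtain ⟨hO⟩ := (OreLocalization.nonempty_oreSet_iff_of_noZeroDivisors
    (R := MonoidAlgebra ℚ Γ) (S := (MonoidAlgebra ℚ Γ)⁰)).2 (fun r s => by
      obtain ⟨x, y, hx, hxy⟩ := ore h r s (nonZeroDivisors.ne_zero s.2)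
      exact ⟨y, ⟨x, mem_nonZeroDivisors_of_ne_zero hx⟩, hxy⟩)
  have := hO
  refine ⟨OreLocalization (MonoidAlgebra ℚ Γ)⁰ (MonoidAlgebra ℚ Γ), inferInstance,
    ((OreLocalization.numeratorRingHom (R := MonoidAlgebra ℚ Γ)
      (S := (MonoidAlgebra ℚ Γ)⁰)).toMonoidHom).comp (MonoidAlgebra.of ℚ Γ), ?_⟩
  have hinj : Function.Injective (OreLocalization.numeratorRingHom (R := MonoidAlgebra ℚ Γ)
      (S := (MonoidAlgebra ℚ Γ)⁰)) :=
    OreLocalization.numeratorHom_inj fun x hx => (mem_nonZeroDivisors_iff.1 hx).1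
  have := linInd_single (Γ := Γ)
  exact this.map' (OreLocalization.numeratorRingHom (R := MonoidAlgebra ℚ Γ)
      (S := (MonoidAlgebra ℚ Γ)⁰)).toAddMonoidHom.toIntLinearMap
      (LinearMap.ker_eq_bot.2 hinj)

end Pool.Agent.Helper75.HG
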